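import Pool.Agent.Mg.F0b7119.G49056d

open Set MeasureTheory Pool.Agent.MP_0b7119_mp.G

/-- In every dimension `d ≥ 1` and for every `p ≥ d`, the lowest gap eigenvalue of `D_m - V` is
not a concave function of `V` on `U_p`. -/
theorem Pool.Agent.Results.MP_0b7119_mp.NotConcave.result
    (E S : Type) [NormedAddCommGroup E] [InnerProductSpace ℝ E] [FiniteDimensional ℝ E]
    [MeasurableSpace E] [BorelSpace E] [NormedAddCommGroup S] [InnerProductSpace ℂ S]
    [CompleteSpace S] [FiniteDimensional ℂ S] (d : ℕ) (hd : 1 ≤ d)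
    (e : OrthonormalBasis (Fin d) ℝ E) (hS : Module.finrank ℂ S = 2 ^ ((d + 1) / 2))
    (α : Fin d → S →L[ℂ] S) (β : S →L[ℂ] S) (h : IsDiracRep α β) (m p : ℝ) (hm : 0 < m)
    (hp : (d : ℝ) ≤ p) :
    ∃ V ∈ Pot E p, ∃ W ∈ Pot E p,
      eLpNorm V (ENNReal.ofReal p) volume < alphaStar e α β m p ∧
      eLpNorm W (ENNReal.ofReal p) volume < alphaStar e α β m p ∧
      ∃ t ∈ Ioo (0 : ℝ) 1, lamD e α β m (t • V + (1 - t) • W) <
        t * lamD e α β m V + (1 - t) * lamD e α β m W :=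
  notConcave hd e hS h hm hp
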